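import Pool.Agent.Results.MP_4a9ea6_nt.TwoPartTwistsX49
import Pool.Agent.U136.FR.Special
import Pool.Agent.U136.FR.Pell

/-!
# The 2-part of the leading-term formula and the 4-rank of the class group of `ℚ(√M)`

`M > 1` is a squarefree number whose prime factors are `≡ 1 mod 4` and split in `ℚ(√-7)`, `Q ≥ 1` is a
squarefree number whose prime factors are `≡ 1 mod 4` and inert in `ℚ(√-7)`, and `E_{MQ}` is the
quadratic twist by `M Q` of `X_0(49)`, the curve `y² + x y = x³ - x² - 2 x - 1` of conductor 49, as in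
`MP_4a9ea6_nt/TwoPartTwistsX49`. `TwoPart D` is the 2-part of the formula of Birch and Swinnerton-Dyer
(the case `d = 1` of the problem, rank zero) when the predicted order
`z = #E_D(ℚ)_tors² L(E_D, 1) / (Ω ∏ c_p)` of `Ш` is a unit at two: `L(E_D, 1) ≠ 0`, `E_D(ℚ)` is finite,
`Ш(E_D/ℚ)[2^∞] = 0` and `z` is a unit at all the primes above two.

A prime factor `p` of `M` is special for `Q` if exactly one of the following is true: `Q` is a square
modulo `p`; `-7` is a fourth power modulo `p`. Let `s` be the number of the special primes.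

The decompositions of the second kind of `M` are the `M = a b` such that `a` is a square modulo all the
prime factors of `b` and `b` is a square modulo all the prime factors of `a`. Their number is `2 ^ c` with
`c ≥ 1`; by the theorem of Rédei and Reichardt, which is not used here, `c - 1` is the 4-rank of the
narrow class group of `ℚ(√M)`. So `c` knows nothing about `-7`, the curve, and the number `Q`.

We show:
* if `E_{MQ}(ℚ)` is finite, then `2 ^ c ≤ 2 ^ s * #Ш(E_{MQ}/ℚ)[2]`;
* hence `TwoPart (M Q)` implies `c ≤ s`;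
* if there is exactly one special prime, then `TwoPart (M Q)` holds if and only if `c = 1`, whatever
  the special prime and the number `Q` are;
* if `c = 1` then `x² - M y² = -1` is solvable in integers; hence, if it is not solvable and `s ≤ 1`, then
  `TwoPart (M Q)` is false, and `E_{MQ}(ℚ)` is infinite or `Ш(E_{MQ}/ℚ)` has an element of order two;
* the bound `c ≤ s` is sharp for every `M`: there is a set `T` of `c` prime factors of `M` such that
  `TwoPart (M Q)` holds for all the `Q` whose set of special primes is `T`;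
* every set of prime factors of `M` is the set of the special primes of infinitely many primes `Q`.

So `c` is the minimum of `s` over the numbers `Q` with `TwoPart (M Q)`, and the 4-rank of the narrow class
group of `ℚ(√M)` can be read off from the values `L(E_{Mq}, 1)` at the primes `q`.

Proof: the matrix `mat (M Q)` of `MP_4a9ea6_nt/TwoPartTwistsX49` is the sum of the Laplacian over `𝔽₂` of the
graph of the quadratic residue symbols between the prime factors of `M` (Rédei's matrix, its kernel are
the decompositions of the second kind) and of the diagonal matrix of the indicator function of the set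
of the special primes; a symmetric matrix of corank `c` over `𝔽₂` becomes invertible if `c` suitable
diagonal entries are changed (the complement of a maximal independent set of rows), and not before.
-/

set_option autoImplicit false

namespace Pool.Agent.Results.MP_dfae13_nt.FourRankAndPell

open Pool.Agent.Results.MP_4a9ea6_nt.TwoPartTwistsX49
open Pool.Agent.TH841.NF.D (Sha)

/-- `M` is squarefree and its prime factors are `≡ 1 mod 4` and split in `ℚ(√-7)`. -/
def Split (M : ℕ) : Prop :=
  Squarefree M ∧ ∀ p ∈ M.primeFactors, p % 4 = 1 ∧ IsSquare (-7 : ZMod p)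

/-- `Q` is squarefree and its prime factors are `≡ 1 mod 4` and inert in `ℚ(√-7)`. -/
def Inert (Q : ℕ) : Prop :=
  Squarefree Q ∧ ∀ q ∈ Q.primeFactors, q % 4 = 1 ∧ ¬ IsSquare (-7 : ZMod q)

open Classical in
/-- The special primes: the prime factors `p` of `M` such that exactly one of the following is true: `Q`
is a square modulo `p`; `-7` is a fourth power modulo `p`. -/
noncomputable def special (M Q : ℕ) : Finset ℕ :=
  M.primeFactors.filter fun p => ¬ (IsSquare (Q : ZMod p) ↔ ∃ y : ZMod p, y ^ 4 = -7)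

open Classical in
/-- The divisors `a` of `M` such that `M = a b` is a decomposition of the second kind: `a` is a square
modulo every prime factor of `b = M / a`, and `b` is a square modulo every prime factor of `a`. -/
noncomputable def secondKind (M : ℕ) : Finset ℕ :=
  M.divisors.filter fun a => (∀ p ∈ (M / a).primeFactors, IsSquare (a : ZMod p)) ∧
    ∀ p ∈ a.primeFactors, IsSquare ((M / a : ℕ) : ZMod p)

section proof

open Pool.Agent.U136

lemma special_eq (M Q : ℕ) : special M Q = FR.special M Q := rfl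

lemma secondKind_eq (M : ℕ) : secondKind M = FR.secondKind M := rfl

lemma coprime {M Q : ℕ} (hM : Split M) (hQ : Inert Q) : Nat.Coprime M Q := by
  rw [← Nat.disjoint_primeFactors hM.1.ne_zero hQ.1.ne_zero, Finset.disjoint_left]
  intro p h1 h2
  exact (hQ.2 p h2).2 (hM.2 p h1).2

lemma adm {M Q : ℕ} (hM : Split M) (hQ : Inert Q) : Adm (M * Q) := by
  refine ⟨(Nat.squarefree_mul (coprime hM hQ)).2 ⟨hM.1, hQ.1⟩, fun p hp => ?_⟩
  rw [Nat.primeFactors_mul hM.1.ne_zero hQ.1.ne_zero, Finset.mem_union] at hp
  rcases hp with h | h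
  · exact (hM.2 p h).1
  · exact (hQ.2 p h).1

lemma split_eq {M Q : ℕ} (hM : Split M) (hQ : Inert Q) : split (M * Q) = M.primeFactors := by
  classical
  ext p
  unfold split
  rw [Finset.mem_filter, Nat.primeFactors_mul hM.1.ne_zero hQ.1.ne_zero, Finset.mem_union]
  constructor
  · rintro ⟨h | h, h1⟩
    · exact h
    · exact absurd h1 (hQ.2 p h).2
  · intro h
    exact ⟨Or.inl h, (hM.2 p h).2⟩

lemma mat_eq' (D : ℕ) : mat D = FR.matS (split D) D := rfl

lemma det_rank {S : Finset ℕ} {D : ℕ} (h : split D = S) :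
    (mat D).det = (FR.matS S D).det ∧ (mat D).rank = (FR.matS S D).rank := by
  subst h
  exact ⟨rfl, rfl⟩

lemma two_iff' {M Q : ℕ} (hM : Split M) (hQ : Inert Q) :
    TwoPart (M * Q) ↔ (FR.matS M.primeFactors (M * Q)).det ≠ 0 := by
  rw [two_iff (adm hM hQ), (det_rank (split_eq hM hQ)).1]

lemma sha {M Q : ℕ} (hM : Split M) (hQ : Inert Q) (hf : Finite (E (M * Q)).toAffine.Point) :
    ((secondKind M).card : ℕ∞) ≤
      2 ^ (special M Q).card * {x : Sha (E (M * Q)) | x + x = 0}.encard := by
  obtain ⟨-, -, -, -, -, h1, -⟩ := core (adm hM hQ)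
  have h2 := h1 hf
  rw [(det_rank (split_eq hM hQ)).2, split_eq hM hQ] at h2
  have h3 := FR.rank_matS_le hM.1 hQ.1 (coprime hM hQ)
  rw [secondKind_eq, FR.card_secondKind hM.1, special_eq]
  refine le_trans ?_ (mul_le_mul_right h2 _)
  rw [← pow_add]
  push_cast
  exact pow_le_pow_right₀ (by norm_num) (by omega)

end proof

/-- **The 2-part of the formula for `E_{MQ}` and the decompositions of the second kind of `M`.** -/
theorem result (M : ℕ) (hM : Split M) (h1 : M ≠ 1) :
    ∃ c : ℕ, 1 ≤ c ∧ (secondKind M).card = 2 ^ c ∧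
      (∀ Q : ℕ, Inert Q → Finite (E (M * Q)).toAffine.Point →
        2 ^ c ≤ 2 ^ (special M Q).card * {x : Sha (E (M * Q)) | x + x = 0}.encard) ∧
      (∀ Q : ℕ, Inert Q → TwoPart (M * Q) → c ≤ (special M Q).card) ∧
      (∀ Q : ℕ, Inert Q → (special M Q).card = 1 → (TwoPart (M * Q) ↔ c = 1)) ∧
      (c = 1 → ∃ x y : ℤ, x ^ 2 - M * y ^ 2 = -1) ∧
      (∀ Q : ℕ, Inert Q → (special M Q).card ≤ 1 → (¬ ∃ x y : ℤ, x ^ 2 - M * y ^ 2 = -1) →
        ¬ TwoPart (M * Q) ∧ (Infinite (E (M * Q)).toAffine.Point ∨
          ∃ x : Sha (E (M * Q)), x ≠ 0 ∧ x + x = 0)) ∧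
      (∃ T ⊆ M.primeFactors, T.card = c ∧ ∀ Q : ℕ, Inert Q → special M Q = T → TwoPart (M * Q)) ∧
      ∀ T ⊆ M.primeFactors, ∀ n : ℕ, ∃ q : ℕ, n < q ∧ q.Prime ∧ Inert q ∧ special M q = T := by
  classical
  have h4 : ∀ p ∈ M.primeFactors, p % 4 = 1 := fun p hp => (hM.2 p hp).1
  have hrk := Pool.Agent.U136.FR.rank_lt hM.1 h1
  have hcard := Pool.Agent.U136.FR.card_secondKind hM.1
  set c := M.primeFactors.card - (Pool.Agent.U136.FR.lap (Pool.Agent.U136.FR.wt M)).rank with hc
  have hsha : ∀ Q : ℕ, Inert Q → Finite (E (M * Q)).toAffine.Point →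
      2 ^ c ≤ 2 ^ (special M Q).card * {x : Sha (E (M * Q)) | x + x = 0}.encard := by
    intro Q hQ hf
    have h := sha hM hQ hf
    rw [secondKind_eq, hcard] at h
    push_cast at h
    exact h
  have hsle : ∀ Q : ℕ, Inert Q → Finite (E (M * Q)).toAffine.Point →
      (∀ x : Sha (E (M * Q)), x + x = 0 → x = 0) → c ≤ (special M Q).card := by
    intro Q hQ hf h0
    have h := hsha Q hQ hf
    have h2 : {x : Sha (E (M * Q)) | x + x = 0} = {0} := by
      ext x
      simp only [Set.mem_ofPred_eq, Set.mem_singleton_iff]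
      exact ⟨h0 x, by rintro rfl; exact add_zero 0⟩
    rw [h2, Set.encard_singleton, mul_one] at h
    have h3 : (2 : ℕ) ^ c ≤ 2 ^ (special M Q).card := by exact_mod_cast h
    exact (Nat.pow_le_pow_iff_right (by norm_num)).1 h3
  have hle : ∀ Q : ℕ, Inert Q → TwoPart (M * Q) → c ≤ (special M Q).card := by
    intro Q hQ ht
    exact hsle Q hQ ht.1 fun x hx => ht.2.1 1 x (by rw [pow_one, two_nsmul]; exact hx)
  have htriv : (∀ a ∈ Pool.Agent.U136.FR.secondKind M, a = 1 ∨ a = M) ↔ c = 1 := by
    rw [Pool.Agent.U136.FR.trivial_iff_card hM.1 h1, hcard]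
    constructor
    · intro h
      have h3 : (2 : ℕ) ^ c = 2 ^ 1 := by rw [h, pow_one]
      exact Nat.pow_right_injective (le_refl 2) h3
    · intro h
      rw [h, pow_one]
  have hpell : c = 1 → ∃ x y : ℤ, x ^ 2 - M * y ^ 2 = -1 := by
    intro h
    refine Pool.Agent.U136.FR.negPell hM.1 h1 h4 fun a b hab ha hb => ?_
    have ha0 : a ≠ 0 := by
      rintro rfl
      rw [zero_mul] at hab
      exact hM.1.ne_zero hab.symm
    have hdiv : M / a = b := by
      rw [← hab]
      exact Nat.mul_div_cancel_left b (Nat.pos_of_ne_zero ha0)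
    rcases htriv.2 h a (Pool.Agent.U136.FR.mem_secondKind.2
      ⟨Nat.mem_divisors.2 ⟨⟨b, hab.symm⟩, hM.1.ne_zero⟩, by rw [hdiv]; exact ha,
        by rw [hdiv]; exact hb⟩) with h5 | h5
    · exact Or.inl h5
    · right
      rw [h5] at hdiv
      rw [← hdiv]
      exact Nat.div_self (Nat.pos_of_ne_zero hM.1.ne_zero)
  refine ⟨c, by omega, by rw [secondKind_eq, hcard], hsha, hle, ?_, hpell, ?_, ?_, ?_⟩
  · intro Q hQ hs
    rw [two_iff' hM hQ, Pool.Agent.U136.FR.det_matS_iff hM.1 h4 hQ.1 (coprime hM hQ)
      (by rw [← special_eq]; exact hs), htriv]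
  · intro Q hQ hs hno
    have h5 : ¬ c ≤ (special M Q).card := fun h => hno (hpell (by omega))
    refine ⟨fun ht => h5 (hle Q hQ ht), ?_⟩
    by_contra hcon
    rw [not_or, not_infinite_iff_finite, not_exists] at hcon
    refine h5 (hsle Q hQ hcon.1 fun x hx => ?_)
    by_contra hx0
    exact hcon.2 x ⟨hx0, hx⟩
  · obtain ⟨T, hT, hTc, hTd⟩ := Pool.Agent.U136.FR.exists_T hM.1 h4
    refine ⟨T, hT, ?_, fun Q hQ hs => ?_⟩
    · rw [hcard] at hTc
      exact Nat.pow_right_injective (le_refl 2) hTc
    · rw [two_iff' hM hQ]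
      exact hTd Q hQ.1 (coprime hM hQ) (by rw [← special_eq]; exact hs)
  · intro T hT n
    obtain ⟨q, h5, h6, h7, h8, h9⟩ := Pool.Agent.U136.FR.exists_special h4 hT n
    refine ⟨q, h5, h6, ⟨h6.prime.squarefree, fun p hp => ?_⟩, h9⟩
    rw [Nat.Prime.primeFactors h6, Finset.mem_singleton] at hp
    subst hp
    refine ⟨h7, ?_⟩
    rw [Pool.Agent.R428.Q0.sq7_iff h6 h7]
    omega

end Pool.Agent.Results.MP_dfae13_nt.FourRankAndPell
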