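import Mathlib
import Pool.Agent.U695.JG.Law

/-!
# The 2-part of the Birch and Swinnerton-Dyer formula for the prime twists of several abelian
# varieties at the same time

`K = ℚ(i)`, `E : y² = x³ - x`, `k ≥ 3`. For a character `χ` of order `2 ^ k` that is a product of
characters of exact order `2 ^ k` modulo different Gaussian primes `π j = 1` modulo `4` with norm `1`
modulo `2 ^ (k + 2)` (`j < m`), the abelian variety `A_χ` over `K`, of dimension `2 ^ (k - 2)`, is the
twist of `E ⊗ ℤ[ζ]` by `χ`; its restriction of scalars `B_χ` to `ℚ` has dimension `2 ^ (k - 1)`, and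
`Ш(B_χ / ℚ) = Ш(A_χ / K)`.

A member of the family is such a `χ`, without any condition on the rank, `Ш` or the `L`-functions.
Let `b` be true or false; we consider the members for which `∏ π j` is `1` modulo `4 (1 + i)` if `b` is
true, and is not if `b` is false (these are the two residue classes modulo `4 (1 + i)` that are `1` modulo
`4`), and the new primes `ρ` (`New`): `ρ = 1` modulo `4`, the norm is `1` modulo `2 ^ (k + 2)`, and
`(∏ π j) ρ` is not `1` modulo `4 (1 + i)`. These are half of the primes `ρ` with the first two properties.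

The criterion `Good` for the member `χ` and the new prime `ρ`: the Laplacian of the quadratic residue
symbols of the `π j` plus the diagonal matrix of the symbols of `ρ` is nonsingular over the field with two
elements. By the theorem for one member, for all `ρ` with this property and all characters `λ`
modulo `ρ` of exact order `2 ^ k` the `L`-functions of `A_{χλ}` are entire with the predicted values at
`1`, up to units above `2` (so that `L(B_{χλ}, 1) ≠ 0`), `B_{χλ}(ℚ)` has order `2` and the `2`-primary
part of `Ш(B_{χλ}/ℚ)` is zero (`Concl`).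

* JOINT LAW. Let `χ_1, …, χ_n` be members (with the same `k` and `b`) without common primes. The `n`
  properties `Good` of the new prime are independent: for every set `A` of indices the proportion of
  the new primes with exactly the properties number `i`, `i` in `A`, tends to
  `∏_{i ∈ A} c(χ_i) ∏_{i ∉ A} (1 - c(χ_i))`, where `c(χ) ≥ 2 ^ (- m)` is the proportion of the vectors `u`
  over the field with two elements such that the Laplacian plus `diag u` is nonsingular.
* SEQUENCES. Let `χ_0, χ_1, …` be any infinite sequence of members without common primes. The set of the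
  new primes for which the frequency of the good indices `i < n` differs from the mean of
  `c(χ_0), …, c(χ_{n-1})` by at least `ε` has a relative density, at most `2 exp (- ε² n / 4)`. If the
  numbers of primes of the `χ_i` are bounded, then for `100 %` of the new primes `ρ` at least `N` of the
  `χ_i` are good, for every `N`, so that the conclusion holds for all the twists `B_{χ_i λ}`, `λ` modulo
  `ρ` of exact order `2 ^ k`, of at least `N` members of the sequence.

The theorem for one member (`n = 1`, and `Good → Concl`) is that of the starting library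
(`MP_a43263_nt.PrimeTwistsTwoPart`, `Pool.Agent.Q283.GA`). New are the independence and the sequences.

The definitions are in `Pool.Agent.Y715.St` and `Pool.Agent.Q283.GA.St`.
-/

set_option autoImplicit false

open scoped Classical

namespace Pool.Agent.Results.MP_dfae13_nt.JointPrimeTwists

open Filter
open Pool.Agent.Y715.St Q283.GA.St

/-- `π` is a member: different Gaussian primes, `1` modulo `4`, of norm `1` modulo `2 ^ (k + 2)`, and the
product is `1` modulo `4 (1 + i)` if and only if `b` -/
def Member (k : ℕ) (b : Prop) {m : ℕ} (π : Fin m → GaussianInt) : Prop :=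
  (∀ j, Adm k (π j)) ∧ Function.Injective π ∧ ((4 * ⟨1, 1⟩ : GaussianInt) ∣ (∏ j, π j) - 1 ↔ b)

/-- the members `π` and `π'` have no common prime -/
def Apart {m m' : ℕ} (π : Fin m → GaussianInt) (π' : Fin m' → GaussianInt) : Prop :=
  ∀ j j', π j ≠ π' j'

/-- the new primes: `1` modulo `4`, of norm `1` modulo `2 ^ (k + 2)`, and `1` modulo `4 (1 + i)` if and
only if `b` is false -/
def New (k : ℕ) (b : Prop) (ρ : GaussianInt) : Prop :=
  Adm k ρ ∧ ¬ ((4 * ⟨1, 1⟩ : GaussianInt) ∣ ρ - 1 ↔ b)

/-- the conclusion for all the twists of the member `π`, `lam` by the characters of exact order `2 ^ k`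
modulo `ρ` -/
def AllTwists (k : ℕ) {m : ℕ} (π : Fin m → GaussianInt)
    (lam : ∀ j, MulChar (GaussianInt ⧸ Ideal.span {π j}) ℂ) (ζ : ℂ) (ρ : GaussianInt) : Prop :=
  ∀ lam' : ∀ j : Fin (m + 1),
      MulChar (GaussianInt ⧸ Ideal.span {(Fin.snoc π ρ : Fin (m + 1) → GaussianInt) j}) ℂ,
    (∀ (j : Fin m) (x : GaussianInt), lam' j.castSucc (Ideal.Quotient.mk _ x) =
      lam j (Ideal.Quotient.mk _ x)) → orderOf (lam' (Fin.last m)) = 2 ^ k →
    Concl k (m + 1) (Fin.snoc π ρ) lam' ζ

/-- the proportion of the vectors `u` such that the Laplacian plus `diag u` is nonsingular -/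
noncomputable def c {m : ℕ} (π : Fin m → GaussianInt) : ℝ :=
  (Nat.card {u : Fin m → ZMod 2 // (lap π + Matrix.diagonal u).det ≠ 0} : ℝ) / 2 ^ m

/-- the proportion of the new primes of norm at most `X` with the property `T` -/
noncomputable def proportion (k : ℕ) (b : Prop) (T : GaussianInt → Prop) (X : ℕ) : ℝ :=
  (count (fun ρ => New k b ρ ∧ T ρ) X : ℝ) / (count (New k b) X : ℝ)

/-- the frequency of the good indices `i < n` -/
noncomputable def frequency (k : ℕ) {m : ℕ → ℕ} (π : ∀ i, Fin (m i) → GaussianInt) (n : ℕ)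
    (ρ : GaussianInt) : ℝ :=
  (((Finset.range n).filter fun i => Good k (π i) ρ).card : ℝ) / n

/-- the mean of `c (π i)`, `i < n` -/
noncomputable def mean {m : ℕ → ℕ} (π : ∀ i, Fin (m i) → GaussianInt) (n : ℕ) : ℝ :=
  (∑ i ∈ Finset.range n, c (π i)) / n

section proof

open Pool.Agent.U695.JG

theorem flat_inj {n : ℕ} {m : Fin n → ℕ} {π : ∀ i : Fin n, Fin (m i) → GaussianInt}
    (h1 : ∀ i, Function.Injective (π i)) (h2 : Pairwise fun i k => Apart (π i) (π k)) :
    Function.Injective (flat π) := by
  rintro ⟨i, j⟩ ⟨i', j'⟩ h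
  by_cases hi : i = i'
  · subst hi
    have hj : j = j' := h1 i h
    rw [hj]
  · exact absurd h (h2 hi j j')

theorem seq_inj {m : ℕ → ℕ} {π : ∀ i : ℕ, Fin (m i) → GaussianInt}
    (h1 : ∀ i, Function.Injective (π i)) (h2 : Pairwise fun i k => Apart (π i) (π k)) :
    ∀ i j i' j', π i j = π i' j' → i = i' ∧ HEq j j' := by
  intro i j i' j' h
  by_cases hi : i = i'
  · subst hi
    exact ⟨rfl, heq_of_eq (h1 i h)⟩
  · exact absurd h (h2 hi j j')

end proof

open Pool.Agent.U695.JG in
open Pool.Agent.U695.JT in
theorem result (k : ℕ) (hk : 3 ≤ k) (b : Prop) (ζ : ℂ) (hζ : ζ ^ (2 ^ (k - 2)) = Complex.I) :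
    -- the new primes are half of the admissible ones
    Tendsto (fun X : ℕ => (count (New k b) X : ℝ) / (count (Adm k) X : ℝ)) atTop (nhds (1 / 2)) ∧
    -- one member
    (∀ (m : ℕ) (π : Fin m → GaussianInt), Member k b π →
      (1 / 2 : ℝ) ^ m ≤ c π ∧
      ∀ lam : ∀ j, MulChar (GaussianInt ⧸ Ideal.span {π j}) ℂ, (∀ j, orderOf (lam j) = 2 ^ k) →
        ∀ ρ : GaussianInt, Good k π ρ → AllTwists k π lam ζ ρ) ∧
    -- the joint law
    (∀ (n : ℕ) (m : Fin n → ℕ) (π : ∀ i : Fin n, Fin (m i) → GaussianInt),
      (∀ i, Member k b (π i)) → (Pairwise fun i k => Apart (π i) (π k)) → ∀ A : Finset (Fin n),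
      Tendsto (proportion k b fun ρ => ∀ i, (i ∈ A ↔ Good k (π i) ρ)) atTop
        (nhds (∏ i : Fin n, if i ∈ A then c (π i) else 1 - c (π i)))) ∧
    -- sequences
    (∀ (m : ℕ → ℕ) (π : ∀ i, Fin (m i) → GaussianInt),
      (∀ i, Member k b (π i)) → (Pairwise fun i k => Apart (π i) (π k)) →
      (∀ n : ℕ, 0 < n → ∀ ε : ℝ, 0 < ε → ∃ d : ℝ, d ≤ 2 * Real.exp (-(ε ^ 2 * n / 4)) ∧
        Tendsto (proportion k b fun ρ => ε ≤ |frequency k π n ρ - mean π n|) atTop (nhds d)) ∧
      ∀ M : ℕ, (∀ i, m i ≤ M) →
        ∀ lam : ∀ i j, MulChar (GaussianInt ⧸ Ideal.span {π i j}) ℂ,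
          (∀ i j, orderOf (lam i j) = 2 ^ k) → ∀ N : ℕ,
        Tendsto (proportion k b fun ρ => ∃ F : Finset ℕ, F.card = N ∧
          ∀ i ∈ F, Good k (π i) ρ ∧ AllTwists k (π i) (lam i) ζ ρ) atTop (nhds 1)) := by
  have hone : ∀ (m : ℕ) (π : Fin m → GaussianInt), Member k b π →
      ∀ lam : ∀ j, MulChar (GaussianInt ⧸ Ideal.span {π j}) ℂ, (∀ j, orderOf (lam j) = 2 ^ k) →
        ∀ ρ : GaussianInt, Good k π ρ → AllTwists k π lam ζ ρ := by
    intro m π hπ lam hlam ρ hρ lam' h1 h2
    exact (Q283.GA.main k m hk π hπ.1 hπ.2.1 lam hlam ζ hζ).2.2 ρ lam' h1 h2 hρ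
  refine ⟨?_, fun m π hπ => ⟨Q283.GA.count_lower π, hone m π hπ⟩, fun n m π hπ hd A => ?_,
    fun m π hπ hd => ?_⟩
  · exact (law (k := k) (n := 0) (m := fun _ => 0) (π := fun i => i.elim0) hk
      (fun i => i.elim0) (fun x => x.1.elim0) b (fun i => i.elim0) ∅).2
  · exact (law hk (fun i j => (hπ i).1 j) (flat_inj (fun i => (hπ i).2.1) hd) b
      (fun i => (hπ i).2.2) A).1
  · have hP := pat hk (fun i j => (hπ i).1 j) (seq_inj (fun i => (hπ i).2.1) hd) b
      (fun i => (hπ i).2.2)
    refine ⟨fun n hn ε hε => ?_, fun M hM lam hlam N => ?_⟩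
    · obtain ⟨d, h1, h2⟩ := lln (fun i => cn_mem (π i)) hP n hn ε hε
      refine ⟨d, h1, h2.congr fun X => ?_⟩
      rw [card_filter_SN, card_SN]
      rfl
    · have hc0 : (0 : ℝ) < (1 / 2) ^ M := by positivity
      refine (many (fun i => cn_mem (π i)) hc0 (fun i => ?_) hP (ne_SN hk b) N).congr fun X => ?_
      · refine le_trans ?_ (Q283.GA.count_lower (π i))
        exact pow_le_pow_of_le_one (by norm_num) (by norm_num) (hM i)
      · rw [card_filter_SN, card_SN]
        unfold proportion
        congr 3
        funext ρ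
        refine propext (and_congr_right fun _ => exists_congr fun F => and_congr_right fun _ =>
          forall_congr' fun i => forall_congr' fun _ => ?_)
        exact ⟨fun h => ⟨h, hone (m i) (π i) (hπ i) (lam i) (hlam i) ρ h⟩, fun h => h.1⟩

end Pool.Agent.Results.MP_dfae13_nt.JointPrimeTwists
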