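import Pool.Agent.U745.LT.Loc

/-!
# A numerical form of the leading-term formula for abelian varieties which is equivalent to it

Let `A` be an abelian variety of dimension `g` over a number field `K` (`K = ℚ` is the case of the
problem), `S` a finite set of primes of `K` containing the primes of bad reduction,
`N_v(e) = #A_v(F)`, `F` the extension of degree `e` of the residue field of `v`, `q = q_v`, and
`L(A, s)` the Euler product over the primes `v ∉ S`.  Birch and Swinnerton-Dyer considered the products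
of the numbers `N_v(1) / q^g` over the `v` with `q_v ≤ X`; an asymptotic formula `C (log X)^r` for these
products implies the Riemann hypothesis for `L(A, s)`, and `C` is then not the inverse of the leading
coefficient (Goldfeld for elliptic curves over `ℚ`, Kuo and Murty, Conrad).  For a real number `τ` put
`ω = 1 + iτ`, `w(z) = 1 / Γ(1 + z)`, `u = log q_v / log X`, and consider instead of the sharp cut-off

`P_τ(X) = exp ∑_{v ∉ S} ( w(ω u) log (N_v(1) / q^g) + ½ (w(2 ω u) - w(ω u)) log (N_v(2) / q^(2g)) )`,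

an absolutely convergent series.  Put `κ = ∫_0^∞ (e^{-t} - 1 / Γ(1 + t)) dt / t`.  Suppose that `L(A, s)`
has a meromorphic continuation to `Re s ≥ 1`, and let `ℓ` be its leading coefficient at `s = 1`, that is
`(s - 1)^{-r} L(A, s) → ℓ ≠ 0`.  Nothing is assumed on the zeros.

* For all `τ`, except for finitely many in every bounded interval, there are no zeros and poles on the
  ray `1 + ω x`, `x > 0`, and then `P_τ(X) (ω e^κ / log X)^r = 1 / ℓ + O(1 / log X)`;
* for the other `τ` one has `± log |P_τ(X)| ≥ exp (X^c)`, `c > 0`, for large `X`;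
* hence for every integer `r` and every `B ≠ 0`, for example `r = rank A(ℚ)` and
  `B = #Ш(A) R_A V_∞ V_bad / (#A(ℚ)_tors #A'(ℚ)_tors)`, the leading-term formula
  `(s - 1)^{-r} L(A, s) → B` is equivalent to the numerical statement
  `P_τ(X) (ω e^κ / log X)^r → 1 / B` for one `τ` and one sequence of numbers `X → ∞`, and then this holds
  with the error `O(1 / log X)` for all the `τ` without zeros and poles on the ray.

The numbers `N_v(2)` enter since the sum of `(α^2) / (2 q^2)` over the eigenvalues `α` of Frobenius and all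
`v` does not converge absolutely; nothing is known in general on the symmetric and exterior square
L-functions of `A` at the edge, and none of it is needed.

Proof.  By Hankel's formula the exponent of `P_τ(X)` is an integral of `exp (exp z)` times
`- log L(A, 1 + ω z / log X) + D(ω z / log X)` over the boundary of a half strip of width `2π`, where `D`
is analytic for `Re z > 0` and `D(z) = O(|z|)`.  The vertical side is shifted to `Re z = 1`.
The library had the order of vanishing (`W_τ(X) = r log log X + O(1)`, the numbers `N_v(1)` only).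
-/

set_option autoImplicit false

namespace Pool.Agent.Results.MP_dfae13_nt.LeadingTermNumerical

open NumberField IsDedekindDomain Filter Topology Classical
open Pool.Agent.R409.RA (rp ca cv wgt re_half)
open Pool.Agent.U745.LT (WW sqa Leading)

section defs

variable {K : Type} [Field K] [NumberField K] {n : ℕ}

/-- The residue field of the prime `v`. -/
noncomputable instance residueField (v : HeightOneSpectrum (𝓞 K)) : Field (𝓞 K ⧸ v.asIdeal) :=
  Pool.Agent.R409.RA.fieldQuot v

instance residueFinite (v : HeightOneSpectrum (𝓞 K)) : Finite (𝓞 K ⧸ v.asIdeal) :=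
  Pool.Agent.R409.RA.finiteQuot v

/-- Its characteristic is a prime number. -/
instance residueChar (v : HeightOneSpectrum (𝓞 K)) : Fact (ringChar (𝓞 K ⧸ v.asIdeal)).Prime :=
  ⟨CharP.char_is_prime (𝓞 K ⧸ v.asIdeal) _⟩

/-- The set `X` of homogeneous polynomials over a ring `R` in `n` variables defines a projective
scheme over `R`.  For a field `κ` with `q` elements and a homomorphism `R → κ` this is `(q - 1)`
times the number of the points of `X` with coordinates in `κ`: the number of the nonzero solutions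
of the equations. -/
noncomputable def cone {R : Type} [CommRing R] (X : Set (MvPolynomial (Fin n) R)) {κ : Type}
    [Field κ] (φ : R →+* κ) : ℕ :=
  Nat.card {u : Fin n → κ // u ≠ 0 ∧ ∀ f ∈ X, MvPolynomial.eval₂ φ u f = 0}

/-- `N_v(e)`: the number of the points over the extension of degree `e` of the residue field of `v` of
the projective scheme `A` defined by the homogeneous polynomials `X` with coefficients in the integers
of `K`. -/
noncomputable def points (X : Set (MvPolynomial (Fin n) (𝓞 K))) (e : ℕ) [NeZero e]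
    (v : HeightOneSpectrum (𝓞 K)) : ℝ :=
  (cone X ((algebraMap (𝓞 K ⧸ v.asIdeal) (FiniteField.Extension (𝓞 K ⧸ v.asIdeal)
    (ringChar (𝓞 K ⧸ v.asIdeal)) e)).comp (Ideal.Quotient.mk v.asIdeal)) : ℝ) /
      ((Ideal.absNorm v.asIdeal : ℝ) ^ e - 1)

/-- `α_1, …, α_{2g}` are the eigenvalues of the geometric Frobenius at the prime `v` on the first
cohomology of the abelian variety `A` of dimension `g` defined by `X`: they are the zeros of a
polynomial with integral coefficients, of absolute value `q_v^{1/2}`, and for every finite extension `κ`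
of the residue field of `v`, of degree `e`, the number of the points of `A` with coordinates in `κ` is
`∏ (1 - α_j^e)`.  By Weil this holds at all primes of good reduction. -/
def IsFrobenius (X : Set (MvPolynomial (Fin n) (𝓞 K))) (g : ℕ) (v : HeightOneSpectrum (𝓞 K))
    (α : Fin (2 * g) → ℂ) : Prop :=
  (∃ P : Polynomial ℤ, P.map (Int.castRingHom ℂ) = ∏ j, (Polynomial.X - Polynomial.C (α j))) ∧
    (∀ j, ‖α j‖ = √(Ideal.absNorm v.asIdeal)) ∧
    ∀ (κ : Type) [Field κ] [Finite κ] (φ : 𝓞 K →+* κ) (e : ℕ), RingHom.ker φ = v.asIdeal →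
      Nat.card κ = Ideal.absNorm v.asIdeal ^ e →
      (cone X φ : ℂ) = ((Ideal.absNorm v.asIdeal : ℂ) ^ e - 1) * ∏ j, (1 - α j ^ e)

/-- The L-function `L(A, s) = ∏_{v ∉ S} ∏_j (1 - α_{v,j} q_v^{-s})⁻¹`. -/
noncomputable def LFun {N : ℕ} (S : Finset (HeightOneSpectrum (𝓞 K)))
    (α : HeightOneSpectrum (𝓞 K) → Fin N → ℂ) (s : ℂ) : ℂ :=
  ∏' v : HeightOneSpectrum (𝓞 K),
    if v ∈ S then 1 else ∏ j, (1 - α v j * (Ideal.absNorm v.asIdeal : ℂ) ^ (-s))⁻¹

/-- `F` is meromorphic at all points of the half-plane `Re s ≥ 1`, and it is the L-function for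
`Re s > 3/2`. -/
def IsContinuation {N : ℕ} (S : Finset (HeightOneSpectrum (𝓞 K)))
    (α : HeightOneSpectrum (𝓞 K) → Fin N → ℂ) (F : ℂ → ℂ) : Prop :=
  (∀ s : ℂ, 1 ≤ s.re → MeromorphicAt F s) ∧ ∀ s : ℂ, 3 / 2 < s.re → F s = LFun S α s

/-- `w(z) = 1 / Γ(1 + z)`. -/
noncomputable def weight (z : ℂ) : ℂ := (Complex.Gamma (1 + z))⁻¹

/-- The term at `v`, with `ω = 1 + iτ` and `u = log q_v / log x`:
`w(ω u) log (N_v(1) / q^g) + ½ (w(2 ω u) - w(ω u)) log (N_v(2) / q^(2g))`. -/
noncomputable def term (X : Set (MvPolynomial (Fin n) (𝓞 K))) (g : ℕ)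
    (S : Finset (HeightOneSpectrum (𝓞 K))) (τ x : ℝ) (v : HeightOneSpectrum (𝓞 K)) : ℂ :=
  if v ∈ S then 0 else
    weight ((1 + τ * Complex.I) * (Real.log (Ideal.absNorm v.asIdeal) / Real.log x)) *
      Real.log (points X 1 v / (Ideal.absNorm v.asIdeal : ℝ) ^ g) +
    1 / 2 * (weight (2 * ((1 + τ * Complex.I) * (Real.log (Ideal.absNorm v.asIdeal) / Real.log x))) -
      weight ((1 + τ * Complex.I) * (Real.log (Ideal.absNorm v.asIdeal) / Real.log x))) *
      Real.log (points X 2 v / (Ideal.absNorm v.asIdeal : ℝ) ^ (2 * g))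

/-- The smoothed product `P_τ(x)` of the numbers `N_v / q_v^g`. -/
noncomputable def prod (X : Set (MvPolynomial (Fin n) (𝓞 K))) (g : ℕ)
    (S : Finset (HeightOneSpectrum (𝓞 K))) (τ x : ℝ) : ℂ :=
  Complex.exp (∑' v : HeightOneSpectrum (𝓞 K), term X g S τ x v)

/-- The point `1 + (1 + iτ) x`. -/
noncomputable def ray (τ x : ℝ) : ℂ := 1 + (1 + τ * Complex.I) * x

/-- `F` has a zero or a pole on the ray `{1 + (1 + iτ) x : x > 0}`. -/
def Blocked (F : ℂ → ℂ) (τ : ℝ) : Prop :=
  ∃ x : ℝ, 0 < x ∧ meromorphicOrderAt F (ray τ x) ≠ 0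

/-- The leading-term formula: `(s - 1)^{-r} F(s)` tends to `B` for `s → 1`. -/
def LeadingTerm (F : ℂ → ℂ) (r : ℤ) (B : ℂ) : Prop :=
  Tendsto (fun s : ℂ => (s - 1) ^ (-r) * F s) (𝓝[≠] 1) (𝓝 B)

end defs

/-- `κ = ∫_0^∞ (e^{-t} - 1/Γ(1 + t)) dt/t`. -/
noncomputable def kappa : ℝ :=
  ∫ t in Set.Ioi (0 : ℝ), (Real.exp (-t) - (Real.Gamma (1 + t))⁻¹) / t

/-- `P(x) (ω e^κ / log x)^r`, `ω = 1 + iτ`. -/
noncomputable def normalised (P : ℝ → ℂ) (τ : ℝ) (r : ℤ) (x : ℝ) : ℂ :=
  P x * ((1 + τ * Complex.I) * Real.exp kappa / Real.log x) ^ r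

/-- The numerical form of the leading-term formula: for one `τ` and one sequence `x → ∞` the number
`P_τ(x) (ω e^κ / log x)^r` tends to `1 / B`. -/
def NumericalForm (P : ℝ → ℝ → ℂ) (r : ℤ) (B : ℂ) : Prop :=
  ∃ (τ : ℝ) (x : ℕ → ℝ), Tendsto x atTop atTop ∧
    Tendsto (fun k => normalised (P τ) τ r (x k)) atTop (𝓝 B⁻¹)

/-- The strong numerical form: for all `τ` such that `F` has no zeros and poles on the ray,
`P_τ(x) (ω e^κ / log x)^r = 1 / B + O(1 / log x)`. -/
def FreeLaw (F : ℂ → ℂ) (P : ℝ → ℝ → ℂ) (r : ℤ) (B : ℂ) : Prop :=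
  ∀ τ : ℝ, ¬ Blocked F τ →
    ∃ C : ℝ, ∀ᶠ x : ℝ in atTop, ‖normalised (P τ) τ r x - B⁻¹‖ ≤ C / Real.log x

/-- The conclusion for the other directions: `1 + (1 + iτ) y` being the last zero or pole on the ray, of
order `m`, `m log |P_τ(x)| > 0` and `log |P_τ(x)|` is larger than `exp (x^c)` in absolute value, for
every `c < y`. -/
def BlockedLaw (F : ℂ → ℂ) (P : ℝ → ℝ → ℂ) : Prop :=
  ∀ τ : ℝ, Blocked F τ → ∃ (y : ℝ) (m : ℤ), 0 < y ∧ m ≠ 0 ∧
    meromorphicOrderAt F (ray τ y) = m ∧ (∀ z : ℝ, y < z → meromorphicOrderAt F (ray τ z) = 0) ∧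
    ∀ c < y, ∀ᶠ x : ℝ in atTop, Real.exp (x ^ c) ≤ (Int.sign m : ℝ) * Real.log ‖P τ x‖

section bridge

variable {K : Type} [Field K] [NumberField K] {n g : ℕ} {X : Set (MvPolynomial (Fin n) (𝓞 K))}
  {S : Finset (HeightOneSpectrum (𝓞 K))} {α : HeightOneSpectrum (𝓞 K) → Fin (2 * g) → ℂ}
  {F : ℂ → ℂ}

theorem ray_eq (τ x : ℝ) : ray τ x = rp 1 τ x := by
  unfold ray rp Pool.Agent.W524.RY.dir
  push_cast
  norm_num

theorem one_eq : (((1 : ℕ) : ℂ) + 1) / 2 = 1 := by
  push_cast
  norm_num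

theorem two_le (v : HeightOneSpectrum (𝓞 K)) : (2 : ℝ) ≤ Ideal.absNorm v.asIdeal :=
  Pool.Agent.R409.RA.two_le v

/-- the parameters with zeros at the primes in `S` -/
noncomputable def par (S : Finset (HeightOneSpectrum (𝓞 K)))
    (α : HeightOneSpectrum (𝓞 K) → Fin (2 * g) → ℂ) (v : HeightOneSpectrum (𝓞 K))
    (j : Fin (2 * g)) : ℂ := if v ∈ S then 0 else α v j

theorem temp (hα : ∀ v ∉ S, IsFrobenius X g v (α v)) (v : HeightOneSpectrum (𝓞 K))
    (j : Fin (2 * g)) :
    ‖par S α v j‖ ≤ (Ideal.absNorm v.asIdeal : ℝ) ^ (((1 : ℕ) : ℝ) / 2) := by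
  have h1 : (Ideal.absNorm v.asIdeal : ℝ) ^ (((1 : ℕ) : ℝ) / 2) = √(Ideal.absNorm v.asIdeal) := by
    rw [Real.sqrt_eq_rpow]
    norm_num
  rw [h1]
  unfold par
  by_cases hv : v ∈ S
  · rw [if_pos hv, norm_zero]
    positivity
  · rw [if_neg hv]
    exact ((hα v hv).2.1 j).le

theorem LFun_eq (s : ℂ) : LFun S α s = Pool.Agent.R409.EV.LProd (par S α) s := by
  unfold LFun Pool.Agent.R409.EV.LProd par
  refine tprod_congr fun v => ?_
  by_cases hv : v ∈ S
  · simp [hv]
  · simp [hv]

theorem cont (hα : ∀ v ∉ S, IsFrobenius X g v (α v)) (hF : IsContinuation S α F) :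
    Pool.Agent.R409.RA.Cont 1 (par S α) F where
  temp := temp hα
  mer := fun s hs => hF.1 s (by
    push_cast at hs
    linarith)
  eq := fun s hs => by
    rw [← LFun_eq]
    exact hF.2 s (by
      push_cast at hs
      linarith)

theorem points_eq (e : ℕ) [NeZero e] {v : HeightOneSpectrum (𝓞 K)} {α : Fin (2 * g) → ℂ}
    (h : IsFrobenius X g v α) : ((points X e v : ℝ) : ℂ) = ∏ j, (1 - α j ^ e) ∧
      0 ≤ points X e v := by
  have h2 := two_le v
  have hpow : (1 : ℝ) < (Ideal.absNorm v.asIdeal : ℝ) ^ e :=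
    one_lt_pow₀ (by linarith) (NeZero.ne e)
  set φ : 𝓞 K →+* FiniteField.Extension (𝓞 K ⧸ v.asIdeal) (ringChar (𝓞 K ⧸ v.asIdeal)) e :=
    (algebraMap (𝓞 K ⧸ v.asIdeal) (FiniteField.Extension (𝓞 K ⧸ v.asIdeal)
      (ringChar (𝓞 K ⧸ v.asIdeal)) e)).comp (Ideal.Quotient.mk v.asIdeal) with hφ
  have hker : RingHom.ker φ = v.asIdeal := by
    ext x
    rw [RingHom.mem_ker, hφ, RingHom.comp_apply]
    constructor
    · intro hx
      have hx' := (algebraMap (𝓞 K ⧸ v.asIdeal) (FiniteField.Extension (𝓞 K ⧸ v.asIdeal)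
        (ringChar (𝓞 K ⧸ v.asIdeal)) e)).injective (hx.trans (map_zero _).symm)
      exact Ideal.Quotient.eq_zero_iff_mem.1 hx'
    · intro hx
      rw [Ideal.Quotient.eq_zero_iff_mem.2 hx, map_zero]
  have hcard : Nat.card (FiniteField.Extension (𝓞 K ⧸ v.asIdeal)
      (ringChar (𝓞 K ⧸ v.asIdeal)) e) = Ideal.absNorm v.asIdeal ^ e :=
    FiniteField.natCard_extension _ _ _
  have h3 := h.2.2 (FiniteField.Extension (𝓞 K ⧸ v.asIdeal) (ringChar (𝓞 K ⧸ v.asIdeal)) e) φ e
    hker hcard
  constructor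
  · unfold points
    have h5 : ((Ideal.absNorm v.asIdeal : ℂ) ^ e - 1) ≠ 0 := by
      have : ((Ideal.absNorm v.asIdeal : ℝ) ^ e - 1) ≠ 0 := by linarith
      exact_mod_cast this
    push_cast
    rw [h3]
    field_simp
  · unfold points
    exact div_nonneg (Nat.cast_nonneg _) (by linarith)

theorem ca_one (β : HeightOneSpectrum (𝓞 K) → Fin (2 * g) → ℂ) (v : HeightOneSpectrum (𝓞 K))
    (j : Fin (2 * g)) : ca 1 β v j = β v j / (Ideal.absNorm v.asIdeal : ℝ) := by
  unfold ca
  rw [one_eq, Complex.cpow_neg_one, div_eq_mul_inv]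
  rfl

theorem log_one (hα : ∀ v ∉ S, IsFrobenius X g v (α v)) {v : HeightOneSpectrum (𝓞 K)}
    (hv : v ∉ S) : (Real.log (points X 1 v / (Ideal.absNorm v.asIdeal : ℝ) ^ g) : ℂ) =
      cv (ca 1 (par S α)) v := by
  obtain ⟨hP, hn, hc⟩ := hα v hv
  have h2 := two_le v
  obtain ⟨h4, h6⟩ := points_eq 1 (hα v hv)
  simp only [pow_one] at h4
  have h7 := Pool.Agent.U745.LT.log_points' (by linarith) hn
    (Pool.Agent.R409.RA.conj_stable hP) h6 h4
  rw [pow_mul, Real.sq_sqrt (by linarith)] at h7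
  rw [h7]
  unfold cv
  refine Finset.sum_congr rfl fun j _ => ?_
  rw [ca_one]
  unfold par
  rw [if_neg hv]

theorem log_two (hα : ∀ v ∉ S, IsFrobenius X g v (α v)) {v : HeightOneSpectrum (𝓞 K)}
    (hv : v ∉ S) : (Real.log (points X 2 v / (Ideal.absNorm v.asIdeal : ℝ) ^ (2 * g)) : ℂ) =
      cv (sqa (ca 1 (par S α))) v := by
  obtain ⟨hP, hn, hc⟩ := hα v hv
  have h2 := two_le v
  have hq0 : (0 : ℝ) ≤ Ideal.absNorm v.asIdeal := by linarith
  obtain ⟨h4, h6⟩ := points_eq 2 (hα v hv)
  have hsq : √((Ideal.absNorm v.asIdeal : ℝ) ^ 2) = Ideal.absNorm v.asIdeal := Real.sqrt_sq hq0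
  have h7 := Pool.Agent.U745.LT.log_points' (β := fun j => α v j ^ 2)
    (q := (Ideal.absNorm v.asIdeal : ℝ) ^ 2) (by nlinarith) (fun j => by
      rw [norm_pow, hn, Real.sq_sqrt hq0, hsq])
    (Pool.Agent.U745.LT.stable_sq (Pool.Agent.R409.RA.conj_stable hP)) h6 h4
  rw [hsq] at h7
  rw [h7]
  unfold cv sqa
  refine Finset.sum_congr rfl fun j _ => ?_
  rw [ca_one]
  unfold par
  rw [if_neg hv]
  congr 2
  push_cast
  ring

theorem cv_zero {v : HeightOneSpectrum (𝓞 K)} (hv : v ∈ S) :
    cv (ca 1 (par S α)) v = 0 ∧ cv (sqa (ca 1 (par S α))) v = 0 := by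
  unfold cv sqa
  constructor
  · refine Finset.sum_eq_zero fun j _ => ?_
    rw [ca_one]
    unfold par
    rw [if_pos hv, zero_div, sub_zero, Complex.log_one]
  · refine Finset.sum_eq_zero fun j _ => ?_
    rw [ca_one]
    unfold par
    rw [if_pos hv, zero_div, zero_pow two_ne_zero, sub_zero, Complex.log_one]

theorem term_eq (hα : ∀ v ∉ S, IsFrobenius X g v (α v)) (τ x : ℝ)
    (v : HeightOneSpectrum (𝓞 K)) : term X g S τ x v =
      cv (ca 1 (par S α)) v * wgt τ (Real.log x) v + 1 / 2 * cv (sqa (ca 1 (par S α))) v *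
        (wgt τ (Real.log x / 2) v - wgt τ (Real.log x) v) := by
  unfold term
  by_cases hv : v ∈ S
  · rw [if_pos hv, (cv_zero hv).1, (cv_zero hv).2]
    ring
  · rw [if_neg hv, log_one hα hv, log_two hα hv]
    have e1 : weight ((1 + τ * Complex.I) *
        (Real.log (Ideal.absNorm v.asIdeal) / Real.log x)) = wgt τ (Real.log x) v := rfl
    have e2 : weight (2 * ((1 + τ * Complex.I) *
        (Real.log (Ideal.absNorm v.asIdeal) / Real.log x))) = wgt τ (Real.log x / 2) v := by
      unfold weight wgt Pool.Agent.W524.RY.dir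
      congr 3
      push_cast
      have : (Pool.Agent.TH339.MP.nm v : ℕ) = Ideal.absNorm v.asIdeal := rfl
      rw [this]
      by_cases hx : (Real.log x : ℂ) = 0
      · rw [hx]
        simp
      · field_simp
    rw [e1, e2]
    ring

theorem sum_eq (hα : ∀ v ∉ S, IsFrobenius X g v (α v)) (τ : ℝ) {x : ℝ} (hx : 1 < x) :
    (Summable fun v => ‖term X g S τ x v‖) ∧
      prod X g S τ x = Complex.exp (WW (ca 1 (par S α)) τ x) := by
  have hc := Pool.Agent.R409.RA.cen_ca (temp hα)
  obtain ⟨h1, h2⟩ := Pool.Agent.U745.LT.cmean2_tsum hc τ (Real.log_pos hx)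
  constructor
  · exact h1.congr fun v => by rw [term_eq hα]
  · unfold prod WW
    rw [h2]
    congr 1
    exact tsum_congr fun v => term_eq hα τ x v

theorem not_blocked {τ : ℝ} :
    ¬ Blocked F τ ↔ ∀ x : ℝ, 0 < x → meromorphicOrderAt F (rp 1 τ x) = 0 := by
  unfold Blocked
  push Not
  simp only [ray_eq]

theorem norm_eq (hα : ∀ v ∉ S, IsFrobenius X g v (α v)) (τ : ℝ) (r : ℤ) {x : ℝ} (hx : 1 < x) :
    normalised (prod X g S τ) τ r x = Complex.exp (WW (ca 1 (par S α)) τ x) *
      (Pool.Agent.W524.RY.dir τ * Real.exp Pool.Agent.W189.LC.kap / Real.log x) ^ r := by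
  unfold normalised
  rw [(sum_eq hα τ hx).2]
  rfl

end bridge

/-- **A numerical form of the leading-term formula which is equivalent to it.** Let `A` be an abelian
variety of dimension `g` over a number field `K`, defined by the homogeneous polynomials `X`, `S` a finite
set of primes of `K` which contains the primes of bad reduction of `A` (or of `X`), and `F` a meromorphic
continuation of `L(A, s)` to `Re s ≥ 1`.  Then

* the series in the definition of `P_τ(x)` converges absolutely for all `x > 1`;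
* only finitely many `τ` in every bounded interval are blocked;
* let `r` be the order of `F` at `s = 1` and `ℓ` its leading coefficient; for the `τ` that are not
  blocked `P_τ(x) (ω e^κ / log x)^r = 1 / ℓ + O(1 / log x)`;
* for the blocked `τ` one has `± log |P_τ(x)| ≥ exp (x^c)`;
* for every integer `ρ` and every `B ≠ 0`, in particular for `ρ = rank A(K)` and the number `B` of the
  conjecture, the leading-term formula, its numerical form for one `τ` and one sequence, and
  its strong numerical form for all `τ` that are not blocked are equivalent. -/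
theorem result (K : Type) [Field K] [NumberField K] (n g : ℕ)
    (X : Set (MvPolynomial (Fin n) (𝓞 K))) (S : Finset (HeightOneSpectrum (𝓞 K)))
    (α : HeightOneSpectrum (𝓞 K) → Fin (2 * g) → ℂ) (hα : ∀ v ∉ S, IsFrobenius X g v (α v))
    (F : ℂ → ℂ) (hF : IsContinuation S α F) :
    (∀ τ x : ℝ, 1 < x → Summable fun v => ‖term X g S τ x v‖) ∧
    (∀ b : ℝ, {τ : ℝ | |τ| ≤ b ∧ Blocked F τ}.Finite) ∧
    (∃ (r : ℤ) (ℓ : ℂ), ℓ ≠ 0 ∧ LeadingTerm F r ℓ ∧ FreeLaw F (prod X g S) r ℓ) ∧
    BlockedLaw F (prod X g S) ∧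
    ∀ (ρ : ℤ) (B : ℂ), B ≠ 0 → List.TFAE [
      LeadingTerm F ρ B,
      NumericalForm (prod X g S) ρ B,
      FreeLaw F (prod X g S) ρ B] := by
  have hc := cont hα hF
  have hcen : (((1 : ℕ) : ℝ) + 1) / 2 ≤ ((((1 : ℕ) : ℂ) + 1) / 2).re := (re_half 1).ge
  have hmF : MeromorphicAt F 1 := by
    have := hc.mer _ hcen
    rwa [one_eq] at this
  have hlead : ∀ (r : ℤ) (B : ℂ), LeadingTerm F r B ↔
      Leading F ((((1 : ℕ) : ℂ) + 1) / 2) r B := by
    intro r B
    rw [one_eq]
    rfl
  -- the equivalences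
  have htfae : ∀ (ρ : ℤ) (B : ℂ), B ≠ 0 → List.TFAE [
      LeadingTerm F ρ B,
      NumericalForm (prod X g S) ρ B,
      FreeLaw F (prod X g S) ρ B] := by
    intro ρ B hB
    have h1 := Pool.Agent.U745.LT.tfae2 hc ρ hB
    rw [← hlead] at h1
    have e2 : NumericalForm (prod X g S) ρ B ↔ ∃ (τ : ℝ) (x : ℕ → ℝ), Tendsto x atTop atTop ∧
        Tendsto (fun n => Complex.exp (WW (ca 1 (par S α)) τ (x n)) *
          (Pool.Agent.W524.RY.dir τ * Real.exp Pool.Agent.W189.LC.kap / Real.log (x n)) ^ ρ)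
          atTop (𝓝 B⁻¹) := by
      unfold NumericalForm
      refine exists_congr fun τ => exists_congr fun x => and_congr_right fun hx => ?_
      refine tendsto_congr' ?_
      filter_upwards [hx.eventually (eventually_gt_atTop 1)] with k hk
      exact norm_eq hα τ ρ hk
    have e3 : FreeLaw F (prod X g S) ρ B ↔
        ∀ τ : ℝ, (∀ x : ℝ, 0 < x → meromorphicOrderAt F (rp 1 τ x) = 0) →
        ∃ C : ℝ, ∀ᶠ x : ℝ in atTop, ‖Complex.exp (WW (ca 1 (par S α)) τ x) *
          (Pool.Agent.W524.RY.dir τ * Real.exp Pool.Agent.W189.LC.kap / Real.log x) ^ ρ - B⁻¹‖ ≤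
          C / Real.log x := by
      unfold FreeLaw
      simp only [not_blocked]
      refine forall_congr' fun τ => imp_congr_right fun _ => exists_congr fun C =>
        eventually_congr ?_
      filter_upwards [eventually_gt_atTop 1] with x hx
      rw [norm_eq hα τ ρ hx]
    rw [e2, e3]
    exact h1
  refine ⟨fun τ x hx => (sum_eq hα τ hx).1, fun b => ?_, ?_, ?_, htfae⟩
  · simpa only [Blocked, ray_eq] using hc.blocked_finite b
  · obtain ⟨r, hr⟩ := WithTop.ne_top_iff_exists.1 (hc.ne_top (s := 1) (by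
      push_cast
      norm_num))
    have hne : meromorphicTrailingCoeffAt F 1 ≠ 0 :=
      hmF.meromorphicTrailingCoeffAt_ne_zero (by rw [← hr]; exact WithTop.coe_ne_top)
    have h1 : LeadingTerm F r (meromorphicTrailingCoeffAt F 1) := by
      have := (Pool.Agent.U745.LT.leading_iff hmF hne (ρ := r)).2 ⟨hr.symm, rfl⟩
      exact this
    exact ⟨r, meromorphicTrailingCoeffAt F 1, hne, h1, ((htfae r _ hne).out 0 2).1 h1⟩
  · intro τ hτ
    obtain ⟨y, hy, hyz⟩ := hτ
    rw [ray_eq] at hyz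
    obtain ⟨x₀, h0, h01, hnz, hz⟩ := hc.exists_last τ
    have hx0 : 0 < x₀ := by
      by_contra hcon
      exact hyz (hnz y (by linarith))
    have hz' : meromorphicOrderAt F (rp 1 τ x₀) ≠ 0 := by
      rcases hz with h2 | h2
      · exact absurd h2 hx0.ne'
      · exact h2
    obtain ⟨m, hm⟩ := WithTop.ne_top_iff_exists.1 (hc.ne_top (s := rp 1 τ x₀) (by
      rw [Pool.Agent.R409.RA.rp_re]
      linarith))
    have hm0 : m ≠ 0 := by
      rintro rfl
      exact hz' (by rw [← hm]; rfl)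
    simp only [ray_eq]
    refine ⟨x₀, m, hx0, hm0, hm.symm, hnz, fun c hcx => ?_⟩
    filter_upwards [Pool.Agent.U745.LT.blocked2 hc τ hx0 h01 hm.symm hm0 hnz hcx,
      eventually_gt_atTop 1] with x h1 h2
    rw [(sum_eq hα τ h2).2, Complex.norm_exp, Real.log_exp]
    exact h1

end Pool.Agent.Results.MP_dfae13_nt.LeadingTermNumerical
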