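import Pool.Agent.U972.Z.Lead

/-!
# The leading-term formula at `3` for the twists by characters ramified at the primes of a tuple from
arbitrary sets of primes

`K = ℚ(ω)`, `E : y² + y = x³`. For a character `χ` that is a product of characters of exact order
`3 ^ l` modulo `m ≥ 1` different Eisenstein primes `π j`, `1` modulo `3`, with norm `1` modulo
`3 ^ (l + 1)`, the abelian variety `A` over `K`, of dimension `3 ^ (l - 1)`, is the twist of
`E ⊗ ℤ[ζ]` by `χ`; its restriction of scalars `B` to `ℚ` has dimension `2 * 3 ^ (l - 1)`, and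
`Ш(B / ℚ) = Ш(A / K)`. A character modulo `π` of exact order `3 ^ l` has the type `e ∈ {1, 2}` if its
power with the exponent `3 ^ (l - 1)` is the `e`-th power of the cubic residue symbol.

Let `C 0, …, C (m - 1)` be ANY finite sets of at most `s` primes, `1` modulo `3`, with norm `1` modulo
`3 ^ (k + 1)` and at most `X`. The tuples are the tuples of different primes `π j ∈ C j`.

* For every tuple, every type `e` such that `D = ∏ j, π j ^ e j` is not `1` modulo `9` (`NotOne`),
  every `l` between `1` and `k`, and ALL characters of the exact order `3 ^ l` of this type, with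
  `n = nulls π e ≥ 1`, which does not depend on `l` and on the characters (`AllCharacters`, `Full`):
  the rank of `B(ℚ) = A(K)` is `2 * 3 ^ (l - 1) * r` and `Ш(B / ℚ)[1 - ζ]` has order `3 ^ t`, where
  `r + t = n - 1`; the values of the `L`-functions at `1` are `Ω (1 - ζ) ^ (m - 1)` and
  `Ω ^ (2 * 3 ^ (l - 1)) * 3 ^ (m - 1)` times numbers that are integral above `3`; **these are units
  above `3` if and only if `n = 1`, if and only if `B(ℚ)` is finite and the `3`-primary part of
  `Ш(B / ℚ)` is zero**; and if `n = 1`, then `B(ℚ)` has order `3`.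
* **The law of every property.** For every property `Φ` of the function `e ↦ nulls π e` of all the
  types together, the number of the tuples with the property `Φ` is the sum, over the tuples, of the
  probability of `Φ` for the model: a random symmetric matrix over `𝔽₃` with zero diagonal in the place
  of the matrix of the cubic residue symbols, up to
  `42 * 3 ^ (m * (m + 3) / 2) * √X * s ^ (m - 3 / 4)`. This is smaller than the number
  `s ^ m` by a power of `X` as soon as `s ≥ X ^ (2 / 3 + η)`, `η > 0`: for very thin sets of primes,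
  without any further condition.
* For one type `e`, the share of the tuples with `n = 1`, that is, with the leading-term formula up to
  units above `3` with trivial `Ш[3 ^ ∞]` and finite `B(ℚ)`, among those with `NotOne`, is
  `∏_{i < ⌊m / 2⌋} (1 - 3 ^ (-(2 i + 1)))` (greater than `0.6390` for all `m`), and the mean of
  `3 ^ (n - 1)` is `2 - 3 ^ (1 - m)`, up to the same error and `3 ^ m` times the error.

The definitions are in `Pool.Agent.Y715.T.St`, `Pool.Agent.U972.TP.St`, `Pool.Agent.U972.Y.St` and
`Pool.Agent.U972.Z.St`.
-/

set_option autoImplicit false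

open Pool.Agent.Y715.T.St Pool.Agent.U972.TP.St Pool.Agent.U972.Y.St Pool.Agent.U972.Z.St
open scoped Classical

/-- **The leading terms for the tuples of primes from arbitrary sets.** -/
theorem Pool.Agent.Results.MP_dfae13_nt.LeadingTermPrimeTuples.result
    (k m X s : ℕ) (hk : 1 ≤ k) (hm : 1 ≤ m) (hX : 1 ≤ X) (hs : 1 ≤ s)
    -- any sets of at most `s` admissible primes of norm at most `X`
    (C : Fin m → Finset Eis) (hC : ∀ i, ∀ p ∈ C i, Adm k p ∧ nrm p ≤ X)
    (hCs : ∀ i, (C i).card ≤ s) :
    -- the values, the rank and the Tate-Shafarevich group for all characters of all types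
    (∀ π ∈ tuples C, AllCharacters k π) ∧
    -- the law of every property of the numbers for all the types together
    (∀ Φ : ((Fin m → (ZMod 3)ˣ) → ℕ) → Prop,
      |number C (fun π => Φ (nulls π)) - ∑ π ∈ tuples C, chance Φ (classes π)| ≤ error m X s) ∧
    -- one type: the probability of the number `1`, and the mean
    (∀ e : Fin m → (ZMod 3)ˣ,
      |number C (fun π => NotOne e π ∧ nulls π e = 1) -
        (∏ i ∈ Finset.range (m / 2), (1 - (1 / 3 : ℝ) ^ (2 * i + 1))) * number C (NotOne e)| ≤
          error m X s ∧
      |∑ π ∈ (tuples C).filter (NotOne e), (3 : ℝ) ^ (nulls π e - 1) -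
        (2 - (1 / 3 : ℝ) ^ (m - 1)) * number C (NotOne e)| ≤ 3 ^ m * error m X s) ∧
    -- the error is small for sets of more than `X ^ (2 / 3 + η)` primes
    (∀ η : ℝ, (X : ℝ) ^ (2 / 3 + η) ≤ s →
      error m X s ≤ 42 * 3 ^ (m * (m + 3) / 2) * (s : ℝ) ^ m / (X : ℝ) ^ (3 * η / 4)) :=
  ⟨fun π hπ => Pool.Agent.U972.Z.all_characters hm
      (fun j => (hC j _ ((Pool.Agent.U972.Z.mem_tuples hπ).1 j)).1)
      (Pool.Agent.U972.Z.mem_tuples hπ).2,
    fun Φ => Pool.Agent.U972.Z.law hk hm hX hs C hC hCs Φ,
    fun e => ⟨Pool.Agent.U972.Z.law_zero hk hm hX hs C hC hCs e,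
      Pool.Agent.U972.Z.law_mean hk hm hX hs C hC hCs e⟩,
    fun η h => Pool.Agent.U972.Z.error_small hX h⟩
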